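import Mathlib
import Pool.Agent.TH74.Oligo.Main
import Pool.Agent.TH74.Oligo.Stab

set_option autoImplicit false

/-! A group embeds in a finitely presented group with a faithful action of type (A) (finitely many
orbits on pairs, finitely generated point stabilizers) if and only if it embeds in a finitely
presented oligomorphic group with finitely generated stabilizers of finite sets, and then also in a
finitely presented highly transitive one.

Idea: replace `(G, S)` by `(G × G, S × S)`, so that `G` contains no finitary permutation, add two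
parking points `o, o'` and form `FSym (S ⊔ {o, o'}) ⋊ G`. The star transpositions `(o x)` satisfy
relations on *pairs* of points only, because of the second parking point, so the extension is
finitely presented. A finitely generated permutation group containing all the finitary
permutations has finitely generated pointwise stabilizers of finite sets. -/

namespace Pool.Agent.Results.MP_24fec0_al.TypeAOligomorphic

/-- `H` embeds in a finitely presented group which acts faithfully on an infinite set `S`, with
finitely many orbits on `S × S` and with finitely generated point stabilizers. -/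
def EmbedsTypeA (H : Type*) [Group H] : Prop :=
  ∃ (m : ℕ) (rels : Finset (FreeGroup (Fin m)))
    (φ : H →* PresentedGroup (rels : Set (FreeGroup (Fin m))))
    (S : Type) (_ : Infinite S)
    (ρ : PresentedGroup (rels : Set (FreeGroup (Fin m))) →* Equiv.Perm S),
    Function.Injective φ ∧ Function.Injective ρ ∧
    (Set.range (fun x : S × S =>
      {y : S × S | ∃ h : PresentedGroup (rels : Set (FreeGroup (Fin m))),
        y = (ρ h x.1, ρ h x.2)})).Finite ∧
    ∀ s : S, ((MulAction.stabilizer (Equiv.Perm S) s).comap ρ).FG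

/-- `H` embeds in a finitely presented group which acts faithfully on `ℕ`, with finitely many orbits
on `k`-tuples for every `k` and with finitely generated pointwise stabilizers of all finite sets
(the conclusion of the question). -/
def EmbedsOligomorphic (H : Type*) [Group H] : Prop :=
  ∃ (m : ℕ) (rels : Finset (FreeGroup (Fin m)))
    (φ : H →* PresentedGroup (rels : Set (FreeGroup (Fin m))))
    (ρ : PresentedGroup (rels : Set (FreeGroup (Fin m))) →* Equiv.Perm ℕ),
    Function.Injective φ ∧ Function.Injective ρ ∧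
    (∀ k : ℕ, (Set.range (fun x : Fin k → ℕ =>
      {y : Fin k → ℕ | ∃ h : PresentedGroup (rels : Set (FreeGroup (Fin m))),
        y = fun i => ρ h (x i)})).Finite) ∧
    ∀ F : Finset ℕ, ((⨅ a ∈ F, MulAction.stabilizer (Equiv.Perm ℕ) a).comap ρ).FG

/-- `H` embeds in a finitely presented group which acts faithfully on `ℕ`, contains every finitary
permutation of `ℕ`, is highly transitive, and has finitely generated pointwise stabilizers of all
finite sets. -/
def EmbedsHighlyTransitive (H : Type*) [Group H] : Prop :=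
  ∃ (m : ℕ) (rels : Finset (FreeGroup (Fin m)))
    (φ : H →* PresentedGroup (rels : Set (FreeGroup (Fin m))))
    (ρ : PresentedGroup (rels : Set (FreeGroup (Fin m))) →* Equiv.Perm ℕ),
    Function.Injective φ ∧ Function.Injective ρ ∧
    (∀ f : Equiv.Perm ℕ, {a : ℕ | f a ≠ a}.Finite → ∃ h, ρ h = f) ∧
    (∀ (k : ℕ) (x y : Fin k → ℕ), Function.Injective x → Function.Injective y →
      ∃ h, ∀ i, ρ h (x i) = y i) ∧
    ∀ F : Finset ℕ, ((⨅ a ∈ F, MulAction.stabilizer (Equiv.Perm ℕ) a).comap ρ).FG

open Pool.Agent.TH74.Oligo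

/-- the coordinatewise action of `G × G` on `S × S` -/
def prodHom {G S : Type} [Group G] (ρ : G →* Equiv.Perm S) : G × G →* Equiv.Perm (S × S) where
  toFun g := Equiv.prodCongr (ρ g.1) (ρ g.2)
  map_one' := by ext x <;> simp
  map_mul' g h := by ext x <;> simp

theorem fixedBy_compl_eq {X : Type*} (f : Equiv.Perm X) :
    (MulAction.fixedBy X f)ᶜ = {a : X | f a ≠ a} := by
  ext x
  simp [MulAction.mem_fixedBy]

/-- extension of a tuple map with the same equality pattern -/
theorem exists_tuple {X : Type*} [DecidableEq X] {k : ℕ} (x y : Fin k → X)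
    (h : ∀ i j, x i = x j ↔ y i = y j) :
    ∃ τ ∈ Subgroup.closure {σ : Equiv.Perm X | σ.IsSwap}, ∀ i, τ (x i) = y i := by
  classical
  let f : X → X := fun z => if hz : ∃ i, x i = z then y hz.choose else z
  have hf : ∀ i, f (x i) = y i := by
    intro i
    have hz : ∃ j, x j = x i := ⟨i, rfl⟩
    simp only [f, hz, dif_pos]
    exact (h _ _).1 hz.choose_spec
  obtain ⟨τ, hτ, h'⟩ := exists_finitary (Finset.univ.image x) f (by
    intro z hz w hw hzw
    obtain ⟨i, -, rfl⟩ := Finset.mem_image.1 (Finset.mem_coe.1 hz)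
    obtain ⟨j, -, rfl⟩ := Finset.mem_image.1 (Finset.mem_coe.1 hw)
    rw [hf, hf] at hzw
    exact (h _ _).2 hzw)
  refine ⟨τ, hτ, fun i => ?_⟩
  rw [h' _ (Finset.mem_image_of_mem _ (Finset.mem_univ _)), hf]

theorem one_imp_three (H : Type*) [Group H] (h : EmbedsTypeA H) : EmbedsHighlyTransitive H := by
  classical
  obtain ⟨m, rels, φ, S, hS, ρ, hφ, hρ, hpairs, hst⟩ := h
  set G := PresentedGroup (rels : Set (FreeGroup (Fin m))) with hG
  have hGfp : Group.IsFinitelyPresented G := inferInstance
  have hGfg : Group.FG G := by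
    obtain ⟨n, ψ, hψ, -⟩ := (inferInstance : Group.IsFinitelyPresented G)
    exact Group.fg_of_surjective hψ
  -- representatives of the orbits on pairs
  obtain ⟨E0, hE0⟩ : ∃ E0 : Finset (S × S), ∀ x : S × S, ∃ p ∈ E0, ∃ g : G,
      x = (ρ g p.1, ρ g p.2) := by
    let f : S × S → Set (S × S) := fun x => {y : S × S | ∃ h : G, y = (ρ h x.1, ρ h x.2)}
    have hf : (Set.range f).Finite := hpairs
    have hc : ∀ A : Set.range f, ∃ x, f x = A := fun A => A.2
    choose c hc using hc
    have : Finite (Set.range f) := hf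
    refine ⟨(Set.finite_range c).toFinset, fun x => ⟨c ⟨f x, x, rfl⟩, by simp, ?_⟩⟩
    have h1 := hc ⟨f x, x, rfl⟩
    have h2 : x ∈ f x := ⟨1, by simp⟩
    have h3 : x ∈ f (c ⟨f x, x, rfl⟩) := by rw [h1]; exact h2
    exact h3
  let _ : MulAction (G × G) (S × S) := MulAction.compHom (S × S) (prodHom ρ)
  have hsmul : ∀ (g : G × G) (x : S × S), g • x = (ρ g.1 x.1, ρ g.2 x.2) := fun g x => rfl
  obtain ⟨A, hA⟩ := hGfg.out
  have : Group.IsFinitelyPresented (G × G) :=
    fp_prod G G A A.finite_toSet hA A A.finite_toSet hA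
  let E : Finset ((S × S) × (S × S)) :=
    (E0 ×ˢ E0).image (fun q => ((q.1.1, q.2.1), (q.1.2, q.2.2)))
  have hE : ∀ x y : S × S, ∃ g : G × G, ∃ p ∈ E, g • p.1 = x ∧ g • p.2 = y := by
    rintro ⟨x1, x2⟩ ⟨y1, y2⟩
    obtain ⟨p, hp, g, hg⟩ := hE0 (x1, y1)
    obtain ⟨q, hq, k, hk⟩ := hE0 (x2, y2)
    rw [Prod.mk.injEq] at hg hk
    refine ⟨(g, k), ((p.1, q.1), (p.2, q.2)), ?_, ?_, ?_⟩
    · exact Finset.mem_image.2 ⟨(p, q), Finset.mem_product.2 ⟨hp, hq⟩, rfl⟩
    · rw [hsmul, ← hg.1, ← hk.1]
    · rw [hsmul, ← hg.2, ← hk.2]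
  have hst2 : ∀ s : S × S, (MulAction.stabilizer (G × G) s).FG := by
    intro s
    have : MulAction.stabilizer (G × G) s =
        ((MulAction.stabilizer (Equiv.Perm S) s.1).comap ρ).prod
          ((MulAction.stabilizer (Equiv.Perm S) s.2).comap ρ) := by
      ext g
      rw [MulAction.mem_stabilizer_iff, hsmul, Subgroup.mem_prod, Subgroup.mem_comap,
        Subgroup.mem_comap, MulAction.mem_stabilizer_iff, MulAction.mem_stabilizer_iff,
        Prod.ext_iff]
      rfl
    rw [this]
    exact (hst s.1).prod (hst s.2)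
  have hinf : ∀ g : G × G, g ≠ 1 → {s : S × S | g • s ≠ s}.Infinite := by
    rintro ⟨g, k⟩ hne
    have hcase : g ≠ 1 ∨ k ≠ 1 := by
      by_contra hcon
      push Not at hcon
      exact hne (by rw [hcon.1, hcon.2]; rfl)
    rcases hcase with hg | hk
    · have : ∃ s, ρ g s ≠ s := by
        by_contra hcon
        push Not at hcon
        apply hg
        apply hρ
        rw [map_one]
        ext s
        exact hcon s
      obtain ⟨s, hs⟩ := this
      apply Set.infinite_of_injective_forall_mem (f := fun t : S => (s, t))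
      · intro t t' h
        simpa using h
      · intro t h
        rw [hsmul, Prod.mk.injEq] at h
        exact hs h.1
    · have : ∃ s, ρ k s ≠ s := by
        by_contra hcon
        push Not at hcon
        apply hk
        apply hρ
        rw [map_one]
        ext s
        exact hcon s
      obtain ⟨s, hs⟩ := this
      apply Set.infinite_of_injective_forall_mem (f := fun t : S => (t, s))
      · intro t t' h
        simpa using h
      · intro t h
        rw [hsmul, Prod.mk.injEq] at h
        exact hs h.2
  obtain ⟨Q, _, i, π, hQfp, hi, hπ, -, hfs⟩ := mainFP E hE hst2 hinf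
  -- countability
  have : Countable (FreeGroup (Fin m)) := by
    unfold FreeGroup
    infer_instance
  have : Countable G := (PresentedGroup.mk_surjective _).countable
  have : Countable S := by
    have : Function.Surjective (fun q : G × E0 => ρ q.1 q.2.1.1) := by
      intro s
      obtain ⟨p, hp, g, hg⟩ := hE0 (s, s)
      rw [Prod.mk.injEq] at hg
      exact ⟨(g, ⟨p, hp⟩), hg.1.symm⟩
    exact this.countable
  let X := Option (Option (S × S))
  have : Infinite X := inferInstance
  obtain ⟨e⟩ : Nonempty (X ≃ ℕ) := nonempty_equiv_of_countable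
  obtain ⟨n, r, hr, ⟨θ⟩⟩ := Group.IsFinitelyPresented.exists_mulEquiv_presentedGroup (G := Q)
  obtain ⟨r', rfl⟩ := hr.exists_finset_coe
  let ρ' : PresentedGroup (r' : Set (FreeGroup (Fin n))) →* Equiv.Perm ℕ :=
    ((e.permCongrHom : Equiv.Perm X ≃* Equiv.Perm ℕ).toMonoidHom.comp π).comp θ.symm.toMonoidHom
  have hρ' : ∀ h a, ρ' h a = e (π (θ.symm h) (e.symm a)) := fun h a => rfl
  have hcont : ∀ f : Equiv.Perm ℕ, {a : ℕ | f a ≠ a}.Finite → ∃ h, ρ' h = f := by
    intro f hf
    have h1 : (MulAction.fixedBy X ((e.permCongrHom : Equiv.Perm X ≃* Equiv.Perm ℕ).symm f))ᶜ.Finite := by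
      rw [fixedBy_compl_eq]
      apply (hf.preimage (f := e) e.injective.injOn).subset
      intro x hx
      simp only [Set.mem_preimage, Set.mem_ofPred_eq]
      intro h
      apply hx
      change e.symm (f (e x)) = x
      rw [h, Equiv.symm_apply_apply]
    obtain ⟨q, hq⟩ := hfs _ h1
    refine ⟨θ q, ?_⟩
    ext a
    rw [hρ', MulEquiv.symm_apply_apply, hq]
    change e (e.symm (f (e (e.symm a)))) = f a
    simp
  refine ⟨n, r', (θ.toMonoidHom.comp (i.comp ((MonoidHom.inl G G).comp φ))), ρ', ?_, ?_, hcont,
    ?_, ?_⟩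
  · have hinl : Function.Injective (MonoidHom.inl G G) := fun a b h => (Prod.mk.inj h).1
    exact θ.injective.comp (hi.comp (hinl.comp hφ))
  · exact (e.permCongrHom.injective.comp hπ).comp θ.symm.injective
  · intro k x y hx hy
    obtain ⟨τ, hτ, h⟩ := exists_tuple x y (fun i j => by rw [hx.eq_iff, hy.eq_iff])
    have hfin := mem_closure_isSwap'.1 hτ
    rw [fixedBy_compl_eq] at hfin
    obtain ⟨h', hh'⟩ := hcont τ hfin
    exact ⟨h', fun i => by rw [hh', h i]⟩
  · intro F
    -- generating set of `Q`
    have hQfg : Group.FG (PresentedGroup (r' : Set (FreeGroup (Fin n)))) := by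
      obtain ⟨n', ψ, hψ, -⟩ := (inferInstance :
        Group.IsFinitelyPresented (PresentedGroup (r' : Set (FreeGroup (Fin n)))))
      exact Group.fg_of_surjective hψ
    obtain ⟨B, hB⟩ := hQfg.out
    exact stab_fg ρ' ((e.permCongrHom.injective.comp hπ).comp θ.symm.injective) B hB
      (fun f hf => by
        rw [fixedBy_compl_eq] at hf
        obtain ⟨h, hh⟩ := hcont f hf
        exact ⟨h, hh⟩) F

theorem three_imp_two (H : Type*) [Group H] (h : EmbedsHighlyTransitive H) :
    EmbedsOligomorphic H := by
  classical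
  obtain ⟨m, rels, φ, ρ, hφ, hρ, hfs, -, hst⟩ := h
  refine ⟨m, rels, φ, ρ, hφ, hρ, ?_, hst⟩
  intro k
  have hfin : (Set.range (fun r : Fin k → Fin k → Prop =>
      {y : Fin k → ℕ | ∀ i j, r i j ↔ y i = y j})).Finite := Set.finite_range _
  apply hfin.subset
  rintro _ ⟨x, rfl⟩
  refine ⟨fun i j => x i = x j, ?_⟩
  ext y
  constructor
  · intro hy
    obtain ⟨τ, hτ, h⟩ := exists_tuple x y hy
    have h1 := mem_closure_isSwap'.1 hτ
    rw [fixedBy_compl_eq] at h1
    obtain ⟨q, hq⟩ := hfs τ h1
    exact ⟨q, by funext i; rw [hq, h i]⟩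
  · rintro ⟨q, rfl⟩ i j
    exact ((ρ q).injective.eq_iff).symm

theorem two_imp_one (H : Type*) [Group H] (h : EmbedsOligomorphic H) : EmbedsTypeA H := by
  obtain ⟨m, rels, φ, ρ, hφ, hρ, horb, hst⟩ := h
  refine ⟨m, rels, φ, ℕ, inferInstance, ρ, hφ, hρ, ?_, ?_⟩
  · have h2 := horb 2
    let T : Set (Fin 2 → ℕ) → Set (ℕ × ℕ) := fun A => (fun y : Fin 2 → ℕ => (y 0, y 1)) '' A
    apply (h2.image T).subset
    rintro _ ⟨x, rfl⟩
    refine ⟨_, ⟨![x.1, x.2], rfl⟩, ?_⟩
    ext y
    constructor
    · rintro ⟨_, ⟨q, rfl⟩, rfl⟩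
      exact ⟨q, rfl⟩
    · rintro ⟨q, rfl⟩
      exact ⟨_, ⟨q, rfl⟩, rfl⟩
  · intro s
    have := hst {s}
    simpa using this

/-- For every group `H` the following are equivalent: `H` embeds in a finitely presented group with
a faithful action of type (A) on an infinite set; `H` embeds in a finitely presented oligomorphic
group with finitely generated stabilizers of finite sets; `H` embeds in a finitely presented highly
transitive group with finitely generated stabilizers of finite sets. -/
theorem result (H : Type*) [Group H] :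
    List.TFAE [EmbedsTypeA H, EmbedsOligomorphic H, EmbedsHighlyTransitive H] := by
  tfae_have 1 → 3 := one_imp_three H
  tfae_have 3 → 2 := three_imp_two H
  tfae_have 2 → 1 := two_imp_one H
  tfae_finish

end Pool.Agent.Results.MP_24fec0_al.TypeAOligomorphic
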